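import Pool.Agent.SHC.Fin

/-!
# The order of the number of colours for the reconstruction of the cube from coloured `1`-balls
-/

set_option autoImplicit false

namespace Pool.Agent.Results.MP_3a0ec5_pr.LinearThreshold

open Filter

/-- The `n`-cube: two vertices are adjacent when they differ in exactly one coordinate. -/
def Q (n : ℕ) : SimpleGraph (Fin n → Bool) where
  Adj x y := hammingDist x y = 1
  symm := ⟨fun x y h => by rw [hammingDist_comm]; exact h⟩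
  loopless := ⟨fun x h => by simp at h⟩

/-- The ball of radius `r` about `v` for the graph distance. -/
def ball (n r : ℕ) (v : Fin n → Bool) : Set (Fin n → Bool) := {u | (Q n).dist v u ≤ r}

/-- The coloured `r`-balls of `χ` at `u` and of `μ` at `w` are isomorphic. -/
def BallIso {n : ℕ} (r : ℕ) (χ μ : (Fin n → Bool) → ℕ) (u w : Fin n → Bool) : Prop :=
  ∃ φ : (Q n).induce (ball n r u) ≃g (Q n).induce (ball n r w), ∀ v, μ (φ v).1 = χ v.1

/-- `r`-local equivalence. -/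
def LocEquiv {n : ℕ} (r : ℕ) (χ μ : (Fin n → Bool) → ℕ) : Prop :=
  ∃ f : Equiv.Perm (Fin n → Bool), ∀ v, BallIso r χ μ v (f v)

/-- `χ ≅ μ`: `χ = μ ∘ g` for an automorphism `g` of the cube. -/
def Equivalent {n : ℕ} (χ μ : (Fin n → Bool) → ℕ) : Prop :=
  ∃ g : Q n ≃g Q n, ∀ v, χ v = μ (g v)

/-- `χ` is `r`-distinguishable. -/
def Distinguishable {n : ℕ} (r : ℕ) (χ : (Fin n → Bool) → ℕ) : Prop :=
  ∀ μ : (Fin n → Bool) → ℕ, LocEquiv r χ μ → Equivalent μ χ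

open Classical in
/-- The probability that a uniform random `q`-colouring of the `n`-cube is `r`-distinguishable. -/
noncomputable def prob (n q r : ℕ) : ℝ :=
  ((Finset.univ.filter fun χ : (Fin n → Bool) → Fin q =>
    Distinguishable r fun v => (χ v : ℕ)).card : ℝ) / (q : ℝ) ^ (2 ^ n)

theorem result : ∃ C : ℕ, 0 < C ∧
    (∃ n0 : ℕ, ∀ n ≥ n0, ∀ q : ℕ, C * n ≤ q → 1 - (1 / 2 : ℝ) ^ n ≤ prob n q 1) ∧
    (∃ n0 : ℕ, ∀ n ≥ n0, ∀ q : ℕ, 2 ≤ q → 4 * q ≤ n → prob n q 1 ≤ (1 / 2 : ℝ) ^ n) ∧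
    (∀ q : ℕ → ℕ, (∀ᶠ n : ℕ in atTop, (2 ≤ q n ∧ 4 * q n ≤ n) ∨ C * n ≤ q n) →
      Tendsto (fun n => prob n (q n) 1) atTop (nhds 1) →
      Tendsto (fun n => prob n (q n + 1) 1) atTop (nhds 1)) ∧
    (∀ (a : ℝ) (q q' : ℕ → ℕ), 0 < a →
      (∀ᶠ n : ℕ in atTop, 2 ≤ q n ∧ 4 * C * q n ≤ q' n) →
      (∀ᶠ n : ℕ in atTop, a ≤ prob n (q n) 1) →
      Tendsto (fun n => prob n (q' n) 1) atTop (nhds 1)) := by
  obtain ⟨C, hC, hup⟩ := Pool.Agent.SHF.final_c
  refine ⟨C, hC, hup, Pool.Agent.SHF.lower, fun q hq h => ?_, fun a q q' ha hq h => ?_⟩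
  · exact Pool.Agent.SHF.mono_of (fun n q => C * n ≤ q) (fun n q h => h.trans (Nat.le_succ q))
      hup q hq h
  · exact Pool.Agent.SHF.coarse_of C hup q q' hq a ha h

end Pool.Agent.Results.MP_3a0ec5_pr.LinearThreshold
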