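import Pool.Agent.HQM.Final

set_option autoImplicit false

namespace Pool.Agent.Results.MP_3a0ec5_pr.Multiples

open Filter Topology Pool.Agent.HQM

/-- Reconstructibility of random colourings of the cube is monotone along multiples of the number
of colours, for every radius. The first part is the inequality for every dimension, the second
part its asymptotic form. -/
theorem result :
    (∀ n r q k T : ℕ, 4 ≤ q → 1 ≤ k → k ≤ (q / 2) ^ T →
      1 - prob n r (k * q) ≤
        (T + 1) * (1 - prob n r q) + 2 ^ (n * (n + 1)) * (5 / 9 : ℝ) ^ (2 ^ n / 6)) ∧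
    (∀ (T : ℕ) (r q k : ℕ → ℕ),
      (∀ᶠ n in atTop, 4 ≤ q n ∧ 1 ≤ k n ∧ k n ≤ (q n / 2) ^ T) →
      Tendsto (fun n => prob n (r n) (q n)) atTop (𝓝 1) →
      Tendsto (fun n => prob n (r n) (k n * q n)) atTop (𝓝 1)) :=
  ⟨fun _ _ _ _ _ hq hk1 hk => main_ineq hq hk1 hk, main_tendsto⟩

end Pool.Agent.Results.MP_3a0ec5_pr.Multiples
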